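import Mathlib

/-!
Lower bound for the Hausdorff dimension of a limit of random compact sets.
-/

namespace Pool.Agent.H389R2.Dim

open MeasureTheory TopologicalSpace Filter Topology Metric Set
open scoped ENNReal NNReal

variable {X : Type*} [MetricSpace X]

/-- Every finite cover of `K` by balls of radius at least `δ` has `∑ r ^ t ≥ c`. -/
def Good (t δ c : ℝ) (K : Set X) : Prop :=
  ∀ s : Finset (X × ℝ), (∀ p ∈ s, δ ≤ p.2) → K ⊆ ⋃ p ∈ s, ball p.1 p.2 → c ≤ ∑ p ∈ s, p.2 ^ t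

theorem Good.mono {t δ c : ℝ} {K K' : Set X} (h : Good t δ c K) (hK : K ⊆ K') : Good t δ c K' :=
  fun s hs hc => h s hs (hK.trans hc)

theorem Good.anti {t δ δ' c : ℝ} {K : Set X} (h : Good t δ c K) (hd : δ ≤ δ') : Good t δ' c K :=
  fun s hs hc => h s (fun p hp => hd.trans (hs p hp)) hc

theorem isClosed_good (t δ c : ℝ) : IsClosed {K : NonemptyCompacts X | Good t δ c (K : Set X)} := by
  have h : {K : NonemptyCompacts X | Good t δ c (K : Set X)} =
      ⋂ s : Finset (X × ℝ), {K : NonemptyCompacts X | (∀ p ∈ s, δ ≤ p.2) →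
        (K : Set X) ⊆ ⋃ p ∈ s, ball p.1 p.2 → c ≤ ∑ p ∈ s, p.2 ^ t} := by
    ext K; simp [Good]
  rw [h]
  apply isClosed_iInter
  intro s
  by_cases h1 : (∀ p ∈ s, δ ≤ p.2) ∧ ¬ c ≤ ∑ p ∈ s, p.2 ^ t
  · have h2 : {K : NonemptyCompacts X | (∀ p ∈ s, δ ≤ p.2) →
        (K : Set X) ⊆ ⋃ p ∈ s, ball p.1 p.2 → c ≤ ∑ p ∈ s, p.2 ^ t} =
        {K : NonemptyCompacts X | (K : Set X) ⊆ ⋃ p ∈ s, ball p.1 p.2}ᶜ := by
      ext K
      simp only [Set.mem_ofPred_eq, Set.mem_compl_iff]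
      constructor
      · intro h3 h4; exact h1.2 (h3 h1.1 h4)
      · intro h3 _ h4; exact absurd h4 h3
    rw [h2]
    exact (NonemptyCompacts.isOpen_subsets_of_isOpen
      (isOpen_biUnion fun p _ => isOpen_ball)).isClosed_compl
  · have h2 : {K : NonemptyCompacts X | (∀ p ∈ s, δ ≤ p.2) →
        (K : Set X) ⊆ ⋃ p ∈ s, ball p.1 p.2 → c ≤ ∑ p ∈ s, p.2 ^ t} = univ := by
      ext K
      simp only [Set.mem_ofPred_eq, Set.mem_univ, iff_true]
      intro h3 _
      by_contra h4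
      exact h1 ⟨h3, h4⟩
    rw [h2]; exact isClosed_univ

/-- If a compact set is good at all scales then its dimension is at least `t`. -/
theorem le_dimH_of_good {t c : ℝ} (ht : 0 < t) (hc : 0 < c) {K : Set X} (hK : IsCompact K)
    (h : ∀ δ : ℝ, 0 < δ → Good t δ c K) : ENNReal.ofReal t ≤ dimH K := by
  borelize X
  set d : ℝ≥0 := t.toNNReal with hd
  have hd' : ENNReal.ofReal t = (d : ℝ≥0∞) := rfl
  rw [hd']
  apply le_dimH_of_hausdorffMeasure_ne_zero
  intro h0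
  have h1 : μH[(d : ℝ)] K = 0 := h0
  have hdt : (d : ℝ) = t := Real.coe_toNNReal t ht.le
  rw [hdt, Measure.hausdorffMeasure_apply] at h1
  have h2 : (⨅ (u : ℕ → Set X) (_ : K ⊆ ⋃ n, u n) (_ : ∀ n, ediam (u n) ≤ 1),
      ∑' n, ⨆ _ : (u n).Nonempty, ediam (u n) ^ t) = 0 := by
    have := ENNReal.iSup_eq_zero.mp h1 1
    simpa using this
  have h3 : (⨅ (u : ℕ → Set X) (_ : K ⊆ ⋃ n, u n) (_ : ∀ n, ediam (u n) ≤ 1),
      ∑' n, ⨆ _ : (u n).Nonempty, ediam (u n) ^ t) < ENNReal.ofReal (c / 2) := by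
    rw [h2]; exact ENNReal.ofReal_pos.mpr (by positivity)
  simp only [iInf_lt_iff] at h3
  obtain ⟨u, hu, hu1, hsum⟩ := h3
  -- radii
  have hfin : ∀ n, ediam (u n) ≠ ∞ := fun n => ne_top_of_le_ne_top ENNReal.one_ne_top (hu1 n)
  have hr : ∀ n, ∃ ρ : ℝ, (ediam (u n)).toReal < ρ ∧
      ρ ^ t < (ediam (u n)).toReal ^ t + c / 2 * (1 / 2) ^ (n + 1) := by
    intro n
    have hcont : ContinuousAt (fun ρ : ℝ => ρ ^ t) (ediam (u n)).toReal :=
      Real.continuousAt_rpow_const _ _ (Or.inr ht.le)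
    have hlt : (ediam (u n)).toReal ^ t < (ediam (u n)).toReal ^ t + c / 2 * (1 / 2) ^ (n + 1) := by
      have : 0 < c / 2 * (1 / 2 : ℝ) ^ (n + 1) := by positivity
      linarith
    have h4 := hcont.eventually_lt_const hlt
    have h5 : ∀ᶠ ρ in 𝓝[>] (ediam (u n)).toReal, ρ ^ t <
        (ediam (u n)).toReal ^ t + c / 2 * (1 / 2) ^ (n + 1) := h4.filter_mono nhdsWithin_le_nhds
    obtain ⟨ρ, h6, h7⟩ := (h5.and self_mem_nhdsWithin).exists
    exact ⟨ρ, h7, h6⟩
  choose ρ hρ1 hρ2 using hr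
  have hρpos : ∀ n, 0 < ρ n := fun n => lt_of_le_of_lt ENNReal.toReal_nonneg (hρ1 n)
  classical
  -- index set of nonempty pieces
  have hx : ∀ n : {n : ℕ // (u n).Nonempty}, ∃ x, x ∈ u n := fun n => n.2
  choose x hx using hx
  have hcov : K ⊆ ⋃ n : {n : ℕ // (u n).Nonempty}, ball (x n) (ρ n) := by
    intro y hy
    obtain ⟨n, hn⟩ := Set.mem_iUnion.mp (hu hy)
    refine Set.mem_iUnion.mpr ⟨⟨n, ⟨y, hn⟩⟩, ?_⟩
    rw [mem_ball]
    refine lt_of_le_of_lt ?_ (hρ1 n)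
    have h4 : edist y (x ⟨n, ⟨y, hn⟩⟩) ≤ ediam (u n) := edist_le_ediam_of_mem hn (hx ⟨n, ⟨y, hn⟩⟩)
    rw [edist_dist] at h4
    exact (ENNReal.ofReal_le_iff_le_toReal (hfin n)).mp h4
  obtain ⟨F, hF⟩ := hK.elim_finite_subcover (fun n : {n : ℕ // (u n).Nonempty} => ball (x n) (ρ n))
    (fun n => isOpen_ball) hcov
  set s : Finset (X × ℝ) := F.image (fun n => (x n, ρ n)) with hs
  -- minimal radius
  obtain ⟨δ, hδ0, hδ⟩ : ∃ δ : ℝ, 0 < δ ∧ ∀ n ∈ F, δ ≤ ρ n := by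
    by_cases hFe : F.Nonempty
    · refine ⟨F.inf' hFe (fun n => ρ n), ?_, fun n hn => Finset.inf'_le _ hn⟩
      rw [Finset.lt_inf'_iff]
      intro n _; exact hρpos n
    · refine ⟨1, one_pos, fun n hn => absurd ⟨n, hn⟩ hFe⟩
  have h5 := h δ hδ0 s (by
    intro p hp
    rw [hs, Finset.mem_image] at hp
    obtain ⟨n, hn, rfl⟩ := hp
    exact hδ n hn) (by
    intro y hy
    obtain ⟨n, hn, hy2⟩ := Set.mem_iUnion₂.mp (hF hy)
    refine Set.mem_iUnion₂.mpr ⟨(x n, ρ n), ?_, hy2⟩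
    rw [hs]; exact Finset.mem_image_of_mem _ hn)
  -- bound the sum
  have h6 : ∑ p ∈ s, p.2 ^ t ≤ ∑ n ∈ F, (ρ n) ^ t := by
    rw [hs]
    refine Finset.sum_image_le_of_nonneg ?_
    intro p hp
    obtain ⟨n, _, rfl⟩ := Finset.mem_image.mp hp
    exact Real.rpow_nonneg (hρpos n).le _
  have h7 : ∑ n ∈ F, (ρ n) ^ t ≤
      ∑ n ∈ F, ((ediam (u n)).toReal ^ t + c / 2 * (1 / 2) ^ ((n : ℕ) + 1)) :=
    Finset.sum_le_sum fun n _ => (hρ2 n).le
  have h8 : ∑ n ∈ F, (c / 2 * (1 / 2 : ℝ) ^ ((n : ℕ) + 1)) ≤ c / 2 := by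
    rw [← Finset.mul_sum]
    have h9 : ∑ n ∈ F, (1 / 2 : ℝ) ^ ((n : ℕ) + 1) ≤ 1 := by
      have h10 : ∑ n ∈ F, (1 / 2 : ℝ) ^ ((n : ℕ) + 1) =
          ∑ n ∈ F.map (Function.Embedding.subtype _), (1 / 2 : ℝ) ^ (n + 1) := by
        rw [Finset.sum_map]; rfl
      rw [h10]
      have h11 : HasSum (fun n : ℕ => (1 / 2 : ℝ) ^ (n + 1)) 1 := by
        have h12 := hasSum_geometric_two' (1 : ℝ)
        have h13 : (fun n : ℕ => (1 / 2 : ℝ) ^ (n + 1)) = fun n : ℕ => (1 : ℝ) / 2 / 2 ^ n := by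
          funext n
          rw [pow_succ, one_div, inv_pow]
          field_simp
        rw [h13]; exact h12
      exact sum_le_hasSum _ (fun n _ => by positivity) h11
    have : 0 ≤ c / 2 := by positivity
    nlinarith
  have h9 : ∑ n ∈ F, (ediam (u n)).toReal ^ t < c / 2 := by
    have h10 : ENNReal.ofReal (∑ n ∈ F, (ediam (u n)).toReal ^ t) < ENNReal.ofReal (c / 2) := by
      refine lt_of_le_of_lt ?_ hsum
      rw [ENNReal.ofReal_sum_of_nonneg (fun n _ => Real.rpow_nonneg ENNReal.toReal_nonneg _)]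
      calc ∑ n ∈ F, ENNReal.ofReal ((ediam (u n)).toReal ^ t)
          = ∑ n ∈ F.map (Function.Embedding.subtype _),
            (⨆ _ : (u n).Nonempty, ediam (u n) ^ t) := by
            rw [Finset.sum_map]
            refine Finset.sum_congr rfl fun n _ => ?_
            have hne : (u n).Nonempty := n.2
            simp only [Function.Embedding.coe_subtype, hne, iSup_pos]
            rw [← ENNReal.ofReal_rpow_of_nonneg ENNReal.toReal_nonneg ht.le,
              ENNReal.ofReal_toReal (hfin n)]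
        _ ≤ ∑' n, (⨆ _ : (u n).Nonempty, ediam (u n) ^ t) := ENNReal.sum_le_tsum _
    exact (ENNReal.ofReal_lt_ofReal_iff (by positivity)).mp h10
  have h10 : ∑ n ∈ F, ((ediam (u n)).toReal ^ t + c / 2 * (1 / 2) ^ ((n : ℕ) + 1)) =
      ∑ n ∈ F, (ediam (u n)).toReal ^ t + ∑ n ∈ F, (c / 2 * (1 / 2 : ℝ) ^ ((n : ℕ) + 1)) :=
    Finset.sum_add_distrib
  linarith

/-- The lower bound for limits in law: if for every `ε` the sets of the sequence are good (at all
scales above `δ`, eventually) with probability at least `1 - ε`, then almost every set of the limit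
has dimension at least `t`. -/
theorem lower_of_tendsto [MeasurableSpace (NonemptyCompacts X)] [BorelSpace (NonemptyCompacts X)]
    {t : ℝ} (ht : 0 < t) {μs : ℕ → ProbabilityMeasure (NonemptyCompacts X)}
    {μ : ProbabilityMeasure (NonemptyCompacts X)} (hμ : Tendsto μs atTop (𝓝 μ))
    (h : ∀ ε : ℝ≥0∞, 0 < ε → ∃ c : ℝ, 0 < c ∧ ∀ δ : ℝ, 0 < δ → ∃ᶠ n in atTop,
      (μs n : Measure (NonemptyCompacts X)) {K : NonemptyCompacts X | ¬ Good t δ c (K : Set X)} ≤ ε) :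
    ∀ᵐ K : NonemptyCompacts X ∂(μ : Measure (NonemptyCompacts X)), ENNReal.ofReal t ≤ dimH (K : Set X) := by
  rw [ae_iff, ← nonpos_iff_eq_zero]
  apply ENNReal.le_of_forall_pos_le_add
  intro ε hε _
  obtain ⟨c, hc, h1⟩ := h ε (by exact_mod_cast hε)
  have hopen : ∀ δ : ℝ, IsOpen {K : NonemptyCompacts X | ¬ Good t δ c (K : Set X)} := by
    intro δ
    have := (isClosed_good (X := X) t δ c).isOpen_compl
    exact this
  have h2 : ∀ δ : ℝ, 0 < δ →
      (μ : Measure (NonemptyCompacts X)) {K : NonemptyCompacts X | ¬ Good t δ c (K : Set X)} ≤ ε := by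
    intro δ hδ
    refine (ProbabilityMeasure.le_liminf_measure_open_of_tendsto hμ (hopen δ)).trans ?_
    exact liminf_le_of_frequently_le (h1 δ hδ)
  set B : ℕ → Set (NonemptyCompacts X) := fun m =>
    {K : NonemptyCompacts X | ¬ Good t (1 / ((m : ℝ) + 1)) c (K : Set X)} with hB
  have h3 : ({K : NonemptyCompacts X | ¬ ENNReal.ofReal t ≤ dimH (K : Set X)} :
      Set (NonemptyCompacts X)) ⊆ ⋃ m : ℕ, B m := by
    intro K hK
    by_contra hcon
    simp only [hB, Set.mem_iUnion, Set.mem_ofPred_eq, not_exists, not_not] at hcon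
    apply hK
    apply le_dimH_of_good ht hc K.isCompact
    intro δ hδ
    obtain ⟨m, hm⟩ := exists_nat_one_div_lt hδ
    exact (hcon m).anti hm.le
  refine le_trans (measure_mono h3) ?_
  rw [zero_add]
  have hmono : Monotone B := by
    intro m m' hmm K hK hG
    exact hK (hG.anti (Nat.one_div_le_one_div hmm))
  rw [hmono.measure_iUnion]
  exact iSup_le fun m => h2 _ (by positivity)

/-- Finite energy implies good. -/
theorem good_of_energy {t δ E : ℝ} (hδ : 0 < δ) (ht : 0 ≤ t) (hE : 0 < E) {K : Set X}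
    (S : Finset X) (hS : S.Nonempty) (hSK : (S : Set X) ⊆ K)
    (h : ∑ x ∈ S, ∑ y ∈ S, (max (dist x y) δ) ^ (-t) ≤ E * (S.card : ℝ) ^ 2) :
    Good t δ (2 ^ (-t) / E) K := by
  classical
  intro s hs hcov
  -- assign to each point of `S` a ball
  have hpos : ∀ p ∈ s, 0 < p.2 := fun p hp => lt_of_lt_of_le hδ (hs p hp)
  have h1 : ∀ x ∈ S, ∃ p ∈ s, x ∈ ball p.1 p.2 := by
    intro x hx
    obtain ⟨p, hp, hxp⟩ := Set.mem_iUnion₂.mp (hcov (hSK hx))
    exact ⟨p, hp, hxp⟩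
  choose! f hf1 hf2 using h1
  set N : X × ℝ → ℝ := fun p => ((S.filter (fun x => f x = p)).card : ℝ) with hN
  have h2 : (S.card : ℝ) = ∑ p ∈ s, N p := by
    have := Finset.card_eq_sum_card_fiberwise (f := f) (s := S) (t := s) (fun x hx => hf1 x hx)
    simp only [hN]
    exact_mod_cast this
  have h3 : ∑ p ∈ s, N p ^ 2 * (2 * p.2) ^ (-t) ≤ E * (S.card : ℝ) ^ 2 := by
    refine le_trans ?_ h
    have h4 : ∀ p ∈ s, N p ^ 2 * (2 * p.2) ^ (-t) ≤
        ∑ x ∈ S.filter (fun x => f x = p), ∑ y ∈ S, (max (dist x y) δ) ^ (-t) := by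
      intro p hp
      have h5 : ∀ x ∈ S.filter (fun x => f x = p), N p * (2 * p.2) ^ (-t) ≤
          ∑ y ∈ S, (max (dist x y) δ) ^ (-t) := by
        intro x hx
        rw [Finset.mem_filter] at hx
        have h6 : ∑ y ∈ S.filter (fun y => f y = p), (2 * p.2) ^ (-t) ≤
            ∑ y ∈ S.filter (fun y => f y = p), (max (dist x y) δ) ^ (-t) := by
          apply Finset.sum_le_sum
          intro y hy
          rw [Finset.mem_filter] at hy
          have hx2 := hf2 x hx.1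
          have hy2 := hf2 y hy.1
          rw [hx.2, mem_ball] at hx2
          rw [hy.2, mem_ball] at hy2
          have h7 : dist x y ≤ 2 * p.2 := by
            have := dist_triangle_right x y p.1
            linarith
          have h8 : max (dist x y) δ ≤ 2 * p.2 := max_le h7 (by linarith [hs p hp, hpos p hp])
          exact Real.rpow_le_rpow_of_nonpos (lt_of_lt_of_le hδ (le_max_right _ _)) h8 (by linarith)
        rw [Finset.sum_const, nsmul_eq_mul] at h6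
        refine h6.trans (Finset.sum_le_sum_of_subset_of_nonneg (Finset.filter_subset _ _) ?_)
        intro y _ _
        positivity
      have h6 := Finset.card_nsmul_le_sum _ _ _ h5
      rw [nsmul_eq_mul] at h6
      calc N p ^ 2 * (2 * p.2) ^ (-t) = N p * (N p * (2 * p.2) ^ (-t)) := by ring
        _ ≤ _ := h6
    refine (Finset.sum_le_sum h4).trans (le_of_eq ?_)
    exact Finset.sum_fiberwise_of_maps_to (fun x hx => hf1 x hx) _
  have hcard : (0 : ℝ) < S.card := by exact_mod_cast hS.card_pos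
  -- Cauchy-Schwarz
  have h4 : (∑ p ∈ s, N p) ^ 2 ≤ (∑ p ∈ s, N p ^ 2 * (2 * p.2) ^ (-t)) * ∑ p ∈ s, (2 * p.2) ^ t := by
    have h5 := Finset.sum_mul_sq_le_sq_mul_sq s (fun p => N p * (2 * p.2) ^ (-t / 2))
      (fun p => (2 * p.2) ^ (t / 2))
    have h6 : ∑ p ∈ s, (N p * (2 * p.2) ^ (-t / 2)) * (2 * p.2) ^ (t / 2) = ∑ p ∈ s, N p := by
      apply Finset.sum_congr rfl
      intro p hp
      have : (0 : ℝ) < 2 * p.2 := by linarith [hpos p hp]
      rw [mul_assoc, ← Real.rpow_add this]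
      ring_nf
      simp
    have h7 : ∑ p ∈ s, (N p * (2 * p.2) ^ (-t / 2)) ^ 2 = ∑ p ∈ s, N p ^ 2 * (2 * p.2) ^ (-t) := by
      apply Finset.sum_congr rfl
      intro p hp
      have : (0 : ℝ) < 2 * p.2 := by linarith [hpos p hp]
      rw [mul_pow, ← Real.rpow_natCast ((2 * p.2) ^ (-t / 2)) 2, ← Real.rpow_mul this.le]
      congr 2
      push_cast; ring
    have h8 : ∑ p ∈ s, ((2 * p.2) ^ (t / 2)) ^ 2 = ∑ p ∈ s, (2 * p.2) ^ t := by
      apply Finset.sum_congr rfl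
      intro p hp
      have : (0 : ℝ) < 2 * p.2 := by linarith [hpos p hp]
      rw [← Real.rpow_natCast ((2 * p.2) ^ (t / 2)) 2, ← Real.rpow_mul this.le]
      congr 1
      push_cast; ring
    rw [h6, h7, h8] at h5
    exact h5
  have h5 : ∑ p ∈ s, (2 * p.2) ^ t = 2 ^ t * ∑ p ∈ s, p.2 ^ t := by
    rw [Finset.mul_sum]
    apply Finset.sum_congr rfl
    intro p hp
    rw [Real.mul_rpow (by norm_num) (hpos p hp).le]
  rw [← h2, h5] at h4
  have h6 : (S.card : ℝ) ^ 2 ≤ E * (S.card : ℝ) ^ 2 * (2 ^ t * ∑ p ∈ s, p.2 ^ t) := by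
    refine h4.trans (mul_le_mul_of_nonneg_right h3 ?_)
    have : 0 ≤ ∑ p ∈ s, p.2 ^ t := Finset.sum_nonneg fun p hp => Real.rpow_nonneg (hpos p hp).le _
    positivity
  have h7 : 1 ≤ E * (2 ^ t * ∑ p ∈ s, p.2 ^ t) := by
    have h8 : (0 : ℝ) < (S.card : ℝ) ^ 2 := by positivity
    by_contra hcon
    rw [not_le] at hcon
    nlinarith
  have h8 : (0 : ℝ) < 2 ^ t := by positivity
  rw [Real.rpow_neg (by norm_num), div_le_iff₀ hE, inv_le_iff_one_le_mul₀ h8]
  linarith [h7]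

end Pool.Agent.H389R2.Dim
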